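import Pool.Agent.N414.LR.Stm
import Pool.Agent.N303.KQ.FG
import Pool.Agent.W440.RC.PTA
import Pool.Agent.W681.RC.PTB

/-!
# LR/KZ: quantitative property (T) (helper490)
-/

set_option autoImplicit false

namespace Pool.Agent.N490.LR.KZ

open Pool.Agent.W661.RC
open Pool.Agent.W681.RC (mul_ap one_ap norm_ap)

/-- a word moves a vector by at most a constant times the displacement of the generators -/
theorem len {k : ℕ} (w : FreeGroup (Fin k)) : ∃ l : ℝ, 0 ≤ l ∧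
    ∀ (H : Type) [NormedAddCommGroup H] [InnerProductSpace ℂ H] [CompleteSpace H]
      (ρ : FreeGroup (Fin k) →* unitary (H →L[ℂ] H)) (x : H) (m : ℝ),
      (∀ s, ‖(ρ (FreeGroup.of s) : H →L[ℂ] H) x - x‖ ≤ m) →
      ‖(ρ w : H →L[ℂ] H) x - x‖ ≤ l * m := by
  induction w using FreeGroup.induction_on with
  | C1 =>
    refine ⟨0, le_rfl, fun H _ _ _ ρ x m _ => ?_⟩
    rw [one_ap, sub_self, norm_zero, zero_mul]
  | of s =>
    refine ⟨1, zero_le_one, fun H _ _ _ ρ x m h => ?_⟩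
    rw [one_mul]
    exact h s
  | inv_of s _ =>
    refine ⟨1, zero_le_one, fun H _ _ _ ρ x m h => ?_⟩
    rw [one_mul]
    have h1 := norm_ap ρ (FreeGroup.of s) ((ρ (FreeGroup.of s)⁻¹ : H →L[ℂ] H) x - x)
    rw [map_sub, ← mul_ap, mul_inv_cancel, one_ap, norm_sub_rev] at h1
    have h2 := h s
    rw [h1] at h2
    exact h2
  | mul a b ha hb =>
    obtain ⟨l1, h1, h2⟩ := ha
    obtain ⟨l2, h3, h4⟩ := hb
    refine ⟨l1 + l2, by positivity, fun H _ _ _ ρ x m h => ?_⟩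
    have h5 := h2 H ρ x m h
    have h6 := h4 H ρ x m h
    have h7 : (ρ (a * b) : H →L[ℂ] H) x - x =
        (ρ a : H →L[ℂ] H) ((ρ b : H →L[ℂ] H) x - x) + ((ρ a : H →L[ℂ] H) x - x) := by
      rw [mul_ap, map_sub]
      abel
    rw [h7]
    refine (norm_add_le _ _).trans ?_
    rw [norm_ap]
    linarith

theorem main : Pool.Agent.N414.LR.S_KZ := by
  classical
  intro G _ hT
  obtain ⟨k, γ, hγ⟩ := Pool.Agent.N303.KQ.exists_free hT
  have hptb : PtbP := Pool.Agent.W681.RC.main W440.RC.main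
  obtain ⟨C, hC, h⟩ := hptb G k γ hT hγ
  refine ⟨Finset.univ.image fun s : Fin k => γ (FreeGroup.of s), fun ε hε => ?_⟩
  set q : ℝ := 2 * Real.sqrt (C * k) with hq
  have hq0 : 0 ≤ q := by positivity
  set δ : ℝ := ε / (q + 1) with hδ
  have hδ0 : 0 < δ := by positivity
  have hqδ : q * δ = ε - δ := by
    rw [hδ]
    field_simp
    ring
  refine ⟨δ, hδ0, ?_⟩
  intro H _ _ _ π ξ hξ hS g
  obtain ⟨w, rfl⟩ := hγ g
  obtain ⟨l, hl, hlen⟩ := len w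
  set t : ℝ := δ / (2 + l) with ht
  have ht0 : 0 < t := by positivity
  obtain ⟨K, hK⟩ := h (t ^ 2) (by positivity)
  obtain ⟨h1, h2⟩ := hK H (π.comp γ) (fun w hw => by
    rw [MonoidHom.comp_apply, hw, map_one]) ξ
  rw [hξ, one_pow, mul_one] at h1 h2
  set x : H := (Mk (π.comp γ) ^ K) ξ with hx
  have h3 : ∀ s, ‖((π.comp γ) (FreeGroup.of s) : H →L[ℂ] H) x - x‖ ≤ t := by
    intro s
    have h4 : ‖((π.comp γ) (FreeGroup.of s) : H →L[ℂ] H) x - x‖ ^ 2 ≤ t ^ 2 :=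
      (Finset.single_le_sum (f := fun s : Fin k =>
        ‖((π.comp γ) (FreeGroup.of s) : H →L[ℂ] H) x - x‖ ^ 2)
        (fun _ _ => sq_nonneg _) (Finset.mem_univ s)).trans h1
    exact (sq_le_sq₀ (norm_nonneg _) ht0.le).1 h4
  have h5 := hlen H (π.comp γ) x t h3
  have h6 : ∑ s, ‖((π.comp γ) (FreeGroup.of s) : H →L[ℂ] H) ξ - ξ‖ ^ 2 ≤ k * δ ^ 2 := by
    calc ∑ s, ‖((π.comp γ) (FreeGroup.of s) : H →L[ℂ] H) ξ - ξ‖ ^ 2 ≤ ∑ _s : Fin k, δ ^ 2 := by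
          refine Finset.sum_le_sum fun s _ => ?_
          exact pow_le_pow_left₀ (norm_nonneg _)
            (hS _ (Finset.mem_image.2 ⟨s, Finset.mem_univ _, rfl⟩)) 2
      _ = k * δ ^ 2 := by
          rw [Finset.sum_const, Finset.card_univ, Fintype.card_fin, nsmul_eq_mul]
  have h7 : ‖x - ξ‖ ≤ Real.sqrt (C * k) * δ + t := by
    have h8 : ‖x - ξ‖ ^ 2 ≤ (Real.sqrt (C * k) * δ + t) ^ 2 := by
      have h9 : (Real.sqrt (C * k)) ^ 2 = C * k := Real.sq_sqrt (by positivity)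
      have h10 : C * ∑ s, ‖((π.comp γ) (FreeGroup.of s) : H →L[ℂ] H) ξ - ξ‖ ^ 2 ≤
          C * (k * δ ^ 2) := mul_le_mul_of_nonneg_left h6 (by linarith)
      have h11 : 0 ≤ 2 * (Real.sqrt (C * k) * δ) * t := by positivity
      calc ‖x - ξ‖ ^ 2 ≤ C * (k * δ ^ 2) + t ^ 2 := by linarith
        _ = (Real.sqrt (C * k)) ^ 2 * δ ^ 2 + t ^ 2 := by rw [h9]; ring
        _ ≤ (Real.sqrt (C * k) * δ + t) ^ 2 := by nlinarith
    exact (sq_le_sq₀ (norm_nonneg _) (by positivity)).1 h8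
  have h12 : (π (γ w) : H →L[ℂ] H) ξ - ξ =
      ((π (γ w) : H →L[ℂ] H) (ξ - x)) + (((π (γ w) : H →L[ℂ] H) x - x) + (x - ξ)) := by
    rw [map_sub]
    abel
  rw [h12]
  have h13 : ‖(π (γ w) : H →L[ℂ] H) (ξ - x)‖ = ‖x - ξ‖ := by
    rw [norm_ap, norm_sub_rev]
  have h14 : ‖(π (γ w) : H →L[ℂ] H) x - x‖ ≤ l * t := h5
  have h15 : (2 + l) * t = δ := by
    rw [ht]
    field_simp
  calc _ ≤ ‖(π (γ w) : H →L[ℂ] H) (ξ - x)‖ +
        (‖(π (γ w) : H →L[ℂ] H) x - x‖ + ‖x - ξ‖) :=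
        (norm_add_le _ _).trans (add_le_add_right (norm_add_le _ _) _)
    _ ≤ q * δ + (2 + l) * t := by
        rw [h13, hq]
        linarith
    _ = ε := by rw [h15, hqδ]; ring

end Pool.Agent.N490.LR.KZ
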